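import Pool.Agent.MWLQ.StmtsA

/-!
# Row RIG of the table mwlq
-/

namespace Pool.Agent.MWLQ.H80

open Pool.Agent.Helper14_MV
open Pool.Agent.Helper2_MV (RR)
open Pool.Agent.MWK (pre)
open Pool.Agent.MWGN (nn Tau gh)
open Pool.Agent.MWGQ (pw Z Gn E0 A0 P0)
open Pool.Agent.MWLE (pin sep con tl tll Sg t1 Fc Fb Fy Fx Fu Fz rz sf k0)

theorem pw_one (k x : ℕ) : pw k [x] = List.replicate k x := by
  unfold pw
  induction k with
  | zero => rfl
  | succ k ih => rw [List.replicate_succ, List.flatten_cons, ih, List.replicate_succ]; rfl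

theorem rig (hPWX : MWGQ.PwxStmt) (hDDC : DdcStmt) (hLER : LerStmt) : RigStmt := by
  intro n β hG m τ hτ hB x S L C hnd Q A v R hv1 hv2 hv3 hV
  have tr : ∀ {a b c : List ℕ}, RR β a b → RR β b c → RR β a c := fun h1 h2 => β.trans h1 h2
  have hn := hG.pos
  have cns : ∀ {a b : List ℕ} (u : List ℕ), RR β a b → RR β (u ++ a) (u ++ b) := by
    intro a b u h
    exact (Helper2_MV.RR.refl (β := β) u).append h
  have h1 : RR β (dn n A ++ x :: (dq n Q v ++ x :: R))
      (List.replicate (n + 1) x ++ (dn n A ++ (dq n Q v ++ x :: R))) := by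
    have h2 := hB Q (dn n A) v R x hv1 hv2 hv3
    have h3 := (hDDC n β hG A [x] [] (dq n Q v ++ x :: R)).1 (n + 1) (by omega)
    rw [List.nil_append, List.nil_append, pw_one] at h3
    exact tr h2 h3
  have h4 : RR β (List.replicate n x ++ (dn n A ++ x :: (dq n Q v ++ x :: R)))
      (dn n A ++ x :: (dq n Q v ++ x :: R)) := by
    refine tr (cns _ h1) (tr ?_ (Helper2_MV.RR.symm h1))
    have h5 := (hPWX n β hG).1 [x] (n + (n + 1)) (n + 1) (by omega) (by omega) (by
      unfold Nat.ModEq
      rw [Nat.add_mod_left])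
    rw [pw_one, pw_one] at h5
    rw [← List.append_assoc, List.replicate_append_replicate]
    exact h5.append (Helper2_MV.RR.refl _)
  have h6 := tr (Helper2_MV.RR.symm hV) (tr (Helper2_MV.RR.symm h4) (cns _ hV))
  apply hLER n β hG m τ hτ x S L C hnd
  have h7 : List.replicate n x ++ x :: (lw4 n L C (m + 1) ++ (x :: tll S L τ)) =
      List.replicate (n + 1) x ++ (lw4 n L C (m + 1) ++ (x :: tll S L τ)) := by
    rw [List.replicate_succ', List.append_assoc]
    rfl
  rw [h7] at h6
  exact h6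

end Pool.Agent.MWLQ.H80
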